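import Mathlib

/-!
# LN5 (MP_730da0_ag): Liouville's theorem for finite-valued functions

`M t` is a finite multiset of complex numbers, for `t` outside a finite set `Z`.  Locally `M t` consists of the values of finitely many holomorphic
functions.  If the values are bounded near the points of `Z` and near infinity, `M` is constant.  More generally a symmetric function of `M` of polynomial
growth is a polynomial.
-/

namespace Pool.Agent.Helper18.LN5

open Filter Topology Polynomial

/-- Near `t` the multiset `M` consists of the values of finitely many holomorphic functions. -/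
def LocHolAt (M : ℂ → Multiset ℂ) (t : ℂ) : Prop :=
  ∃ (N : ℕ) (g : Fin N → ℂ → ℂ), ∀ᶠ s in 𝓝 t,
    (∀ i, DifferentiableAt ℂ (g i) s) ∧ M s = (Finset.univ.val.map fun i => g i s)

/-- A function holomorphic outside of a finite set, bounded near the points of this set and near infinity, is constant. -/
theorem liouville_punct (Z : Finset ℂ) (h : ℂ → ℂ) (hd : ∀ t, t ∉ Z → DifferentiableAt ℂ h t)
    (hZ : ∀ a ∈ Z, ∃ B : ℝ, ∀ᶠ t in 𝓝[≠] a, ‖h t‖ ≤ B) (hinf : ∃ B : ℝ, ∀ᶠ t in cocompact ℂ, ‖h t‖ ≤ B) :
    ∃ c, ∀ t, t ∉ Z → h t = c := by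
  classical
  -- extend h over Z
  set H : ℂ → ℂ := fun t => if t ∈ Z then limUnder (𝓝[≠] t) h else h t with hH
  have hev : ∀ a : ℂ, ∀ᶠ t in 𝓝[≠] a, t ∉ Z := by
    intro a
    have h1 : (↑(Z.erase a) : Set ℂ)ᶜ ∈ 𝓝 a :=
      (Z.erase a).finite_toSet.isClosed.isOpen_compl.mem_nhds (by simp)
    filter_upwards [mem_nhdsWithin_of_mem_nhds h1, self_mem_nhdsWithin] with t ht hta htZ
    exact ht (Finset.mem_coe.2 (Finset.mem_erase.2 ⟨hta, htZ⟩))
  have hHd : Differentiable ℂ H := by
    intro a
    by_cases ha : a ∈ Z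
    · obtain ⟨B, hB⟩ := hZ a ha
      have h1 : ∀ᶠ z in 𝓝[≠] a, DifferentiableAt ℂ h z := by
        filter_upwards [hev a] with t ht using hd t ht
      have h2 : (fun z => h z - h a) =o[𝓝[≠] a] fun z => (z - a)⁻¹ := by
        have h3 : (fun z => h z - h a) =O[𝓝[≠] a] fun _ => (1 : ℝ) := by
          refine Asymptotics.IsBigO.of_bound (B + ‖h a‖) ?_
          filter_upwards [hB] with z hz
          rw [norm_one, mul_one]
          exact (norm_sub_le _ _).trans (by linarith)
        refine h3.trans_isLittleO ?_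
        rw [Asymptotics.isLittleO_const_left]
        right
        have := tendsto_norm_inv_nhdsNE_zero_atTop (α := ℂ)
        have h4 : Tendsto (fun z : ℂ => z - a) (𝓝[≠] a) (𝓝[≠] 0) := by
          refine tendsto_nhdsWithin_of_tendsto_nhds_of_eventually_within _ ?_ ?_
          · have : Tendsto (fun z : ℂ => z - a) (𝓝 a) (𝓝 (a - a)) :=
              (continuous_id.sub continuous_const).tendsto a
            rw [sub_self] at this
            exact this.mono_left nhdsWithin_le_nhds
          · filter_upwards [self_mem_nhdsWithin] with z hz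
            exact sub_ne_zero.2 hz
        exact this.comp h4
      have h5 := Complex.differentiableOn_update_limUnder_of_isLittleO (f := h) (c := a)
        (s := {t | t = a ∨ t ∉ Z}) ?_ ?_ h2
      · have h6 : {t | t = a ∨ t ∉ Z} ∈ 𝓝 a := by
          have := hev a
          rw [eventually_nhdsWithin_iff] at this
          filter_upwards [this] with t ht
          by_cases hta : t = a
          · exact Or.inl hta
          · exact Or.inr (ht hta)
        have h7 := (h5 a (by simp)).differentiableAt h6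
        refine h7.congr_of_eventuallyEq ?_
        filter_upwards [h6] with t ht
        rcases ht with rfl | ht
        · simp [hH, ha]
        · have hta : t ≠ a := fun he => ht (he ▸ ha)
          simp [hH, ht, hta]
      · have := hev a
        rw [eventually_nhdsWithin_iff] at this
        filter_upwards [this] with t ht
        by_cases hta : t = a
        · exact Or.inl hta
        · exact Or.inr (ht hta)
      · intro t ht
        rcases ht.1 with h8 | h8
        · exact absurd h8 ht.2
        · exact (hd t h8).differentiableWithinAt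
    · have h1 : ((↑Z : Set ℂ)ᶜ) ∈ 𝓝 a := Z.finite_toSet.isClosed.isOpen_compl.mem_nhds (by simpa using ha)
      refine (hd a ha).congr_of_eventuallyEq ?_
      filter_upwards [h1] with t ht
      have : t ∉ Z := by simpa using ht
      simp [hH, this]
  obtain ⟨B, hB⟩ := hinf
  have hbd : ∃ C, ∀ t, ‖H t‖ ≤ C := by
    have h1 : ∀ᶠ t in cocompact ℂ, ‖H t‖ ≤ B := by
      filter_upwards [hB, Z.finite_toSet.isCompact.compl_mem_cocompact] with t ht hZt
      have : t ∉ Z := by simpa using hZt
      simpa [hH, this] using ht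
    rw [Filter.eventually_iff, mem_cocompact] at h1
    obtain ⟨K, hK, hK2⟩ := h1
    obtain ⟨C, hC⟩ := hK.exists_bound_of_continuousOn (f := H) hHd.continuous.continuousOn
    refine ⟨max B C, fun t => ?_⟩
    by_cases ht : t ∈ K
    · exact (hC t ht).trans (le_max_right _ _)
    · exact (hK2 ht).trans (le_max_left _ _)
  obtain ⟨C, hC⟩ := hbd
  refine ⟨H 0, fun t ht => ?_⟩
  have h1 : H t = H 0 := hHd.apply_eq_apply_of_bounded
    (isBounded_iff_forall_norm_le.2 ⟨C, by rintro _ ⟨x, rfl⟩; exact hC x⟩) t 0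
  rw [← h1]
  simp [hH, ht]

theorem LocHolAt.prod {M : ℂ → Multiset ℂ} {t : ℂ} (h : LocHolAt M t) (φ : ℂ → ℂ) (hφ : Differentiable ℂ φ) :
    DifferentiableAt ℂ (fun s => ((M s).map φ).prod) t := by
  obtain ⟨N, g, hg⟩ := h
  have h1 : (fun s => ((M s).map φ).prod) =ᶠ[𝓝 t] fun s => ∏ i, φ (g i s) := by
    filter_upwards [hg] with s hs
    rw [hs.2, Multiset.map_map]
    rfl
  refine DifferentiableAt.congr_of_eventuallyEq ?_ h1
  have h2 := hg.self_of_nhds.1
  exact DifferentiableAt.fun_finsetProd fun i _ => (hφ _).comp t (h2 i)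

/-- A multiset is determined by the polynomial with these roots. -/
theorem eq_of_prod_sub {s t : Multiset ℂ} (h : ∀ y : ℂ, (s.map fun x => y - x).prod = (t.map fun x => y - x).prod) :
    s = t := by
  have h1 : (s.map fun x => X - C x).prod = (t.map fun x => X - C x).prod := by
    refine Polynomial.funext fun y => ?_
    rw [Polynomial.eval_multiset_prod, Polynomial.eval_multiset_prod, Multiset.map_map, Multiset.map_map]
    simpa [Function.comp_def] using h y
  have h2 := congrArg Polynomial.roots h1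
  rwa [Polynomial.roots_multiset_prod_X_sub_C, Polynomial.roots_multiset_prod_X_sub_C] at h2

/-- Liouville's theorem for finite-valued functions. -/
theorem liouville_multi (Z : Finset ℂ) (M : ℂ → Multiset ℂ) (hd : ∀ t, t ∉ Z → LocHolAt M t)
    (N : ℕ) (hN : ∀ t, t ∉ Z → Multiset.card (M t) ≤ N)
    (hZ : ∀ a ∈ Z, ∃ B : ℝ, ∀ᶠ t in 𝓝[≠] a, ∀ x ∈ M t, ‖x‖ ≤ B)
    (hinf : ∃ B : ℝ, ∀ᶠ t in cocompact ℂ, ∀ x ∈ M t, ‖x‖ ≤ B) :
    ∃ M₀, ∀ t, t ∉ Z → M t = M₀ := by
  classical
  have hev : ∀ a : ℂ, ∀ᶠ t in 𝓝[≠] a, t ∉ Z := by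
    intro a
    have h1 : (↑(Z.erase a) : Set ℂ)ᶜ ∈ 𝓝 a :=
      (Z.erase a).finite_toSet.isClosed.isOpen_compl.mem_nhds (by simp)
    filter_upwards [mem_nhdsWithin_of_mem_nhds h1, self_mem_nhdsWithin] with t ht hta htZ
    exact ht (Finset.mem_coe.2 (Finset.mem_erase.2 ⟨hta, htZ⟩))
  have bd : ∀ (y : ℂ) (B : ℝ) (s : Multiset ℂ), Multiset.card s ≤ N → (∀ x ∈ s, ‖x‖ ≤ B) →
      ‖(s.map fun x => y - x).prod‖ ≤ (1 + ‖y‖ + |B|) ^ N := by
    intro y B s hs hB
    have h1 : ‖(s.map fun x => y - x).prod‖ ≤ (1 + ‖y‖ + |B|) ^ Multiset.card s := by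
      clear hs
      induction s using Multiset.induction with
      | empty => simp
      | cons a s ih =>
        rw [Multiset.map_cons, Multiset.prod_cons, norm_mul, Multiset.card_cons, pow_succ, mul_comm]
        refine mul_le_mul (ih fun x hx => hB x (Multiset.mem_cons_of_mem hx)) ?_ (norm_nonneg _) (by positivity)
        have := hB a (Multiset.mem_cons_self a s)
        exact (norm_sub_le _ _).trans (by linarith [le_abs_self B])
    refine h1.trans (pow_le_pow_right₀ ?_ hs)
    linarith [norm_nonneg y, abs_nonneg B]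
  have key : ∀ y : ℂ, ∃ c, ∀ t, t ∉ Z → ((M t).map fun x => y - x).prod = c := by
    intro y
    refine liouville_punct Z _ (fun t ht => (hd t ht).prod _ (by fun_prop)) ?_ ?_
    · intro a ha
      obtain ⟨B, hB⟩ := hZ a ha
      refine ⟨(1 + ‖y‖ + |B|) ^ N, ?_⟩
      filter_upwards [hB, hev a] with t ht htZ
      exact bd y B _ (hN t htZ) ht
    · obtain ⟨B, hB⟩ := hinf
      refine ⟨(1 + ‖y‖ + |B|) ^ N, ?_⟩
      filter_upwards [hB, Z.finite_toSet.isCompact.compl_mem_cocompact] with t ht htZ
      exact bd y B _ (hN t (by simpa using htZ)) ht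
  obtain ⟨t₀, ht₀⟩ : ∃ t₀ : ℂ, t₀ ∉ Z := Z.exists_notMem
  refine ⟨M t₀, fun t ht => eq_of_prod_sub fun y => ?_⟩
  obtain ⟨c, hc⟩ := key y
  rw [hc t ht, hc t₀ ht₀]

end Pool.Agent.Helper18.LN5
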